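import Pool.Agent.Helper76.SGA.Goals

/-!
# MP_a41896_nt, project SG part A, packet REN: polynomials in a part of the variables
-/

set_option autoImplicit false

open MvPolynomial

namespace Pool.Agent.Helper32.SGA

open Pool.Agent.Helper92.Ru Pool.Agent.Helper42.SG Pool.Agent.Helper76.SGA

lemma shift_rename {k : Type} [Field k] {m M : ℕ} (e : Fin m → Fin M) (ξ : Fin M → k)
    (p : MvPolynomial (Fin m) k) :
    shiftP ξ (rename e p) = rename e (shiftP (fun h => ξ (e h)) p) := by
  have h : (shiftP ξ).comp (rename e) =
      (rename e).comp (shiftP (fun h => ξ (e h))) := by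
    apply MvPolynomial.algHom_ext
    intro i
    simp [shiftP]
  exact DFunLike.congr_fun h p

lemma mem_support_rename {k : Type} [Field k] {m M : ℕ} (e : Fin m → Fin M)
    (he : Function.Injective e) (p : MvPolynomial (Fin m) k) (u : Fin m →₀ ℕ) :
    Finsupp.mapDomain e u ∈ (rename e p).support ↔ u ∈ p.support := by
  rw [mem_support_iff, mem_support_iff, coeff_rename_mapDomain _ he]

lemma PH_rename {k : Type} [Field k] [NumberField k] {m M : ℕ} (e : Fin m → Fin M)
    (he : Function.Injective e) (p : MvPolynomial (Fin m) k) : PH (rename e p) = PH p := by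
  classical
  obtain ⟨E, hE⟩ : ∃ E : p.support → (rename e p).support, ∀ u, (E u).1 = Finsupp.mapDomain e u.1 :=
    ⟨fun u => ⟨Finsupp.mapDomain e u.1, (mem_support_rename e he p u.1).mpr u.2⟩, fun _ => rfl⟩
  have hb : Function.Bijective E := by
    constructor
    · intro u v huv
      apply Subtype.ext
      apply Finsupp.mapDomain_injective he
      rw [← hE u, ← hE v, huv]
    · rintro ⟨v, hv⟩
      have hv' := hv
      rw [support_rename_of_injective he, Finset.mem_image] at hv'
      obtain ⟨u, hu, huv⟩ := hv'
      exact ⟨⟨u, hu⟩, Subtype.ext ((hE _).trans huv)⟩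
  have h := Height.mulHeight_comp_equiv (Equiv.ofBijective E hb)
    (fun v : (rename e p).support => coeff v.1 (rename e p))
  unfold PH
  rw [← h]
  congr 1
  funext u
  rw [Function.comp_apply, Equiv.ofBijective_apply, hE, coeff_rename_mapDomain _ he]

lemma sum_emb {m M : ℕ} (e : Fin m → Fin M) (he : Function.Injective e) (g : Fin M → ℝ)
    (hg : ∀ h, h ∉ Set.range e → g h = 0) : ∑ h, g h = ∑ h, g (e h) := by
  classical
  rw [← Finset.sum_image (f := g) (s := Finset.univ) (g := e) (fun a _ b _ hab => he hab)]
  symm
  apply Finset.sum_subset (Finset.subset_univ _)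
  intro x _ hx
  apply hg
  rintro ⟨y, hy⟩
  exact hx (Finset.mem_image.mpr ⟨y, Finset.mem_univ _, hy⟩)

/-- **REN**. -/
theorem ren : REN := by
  classical
  intro k _ _ m M e he f hf
  have hv : (↑f.vars : Set (Fin M)) ⊆ Set.range e := by
    intro h hh
    by_contra hc
    have := hf h hc
    rw [degreeOf_def, Multiset.count_eq_zero] at this
    apply this
    rw [Finset.mem_coe, vars_def, Multiset.mem_toFinset] at hh
    exact hh
  obtain ⟨f', hf'⟩ := exists_rename_eq_of_vars_subset_range f e he hv
  refine ⟨f', hf'.symm, ?_, ?_, ?_, ?_, ?_⟩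
  · intro h
    rw [← hf', degreeOf_rename_of_injective he]
  · rw [← hf', PH_rename e he]
  · intro r ξ θ hI u hu
    have h1 : Finsupp.mapDomain e u ∈ (shiftP ξ f).support := by
      rw [← hf', shift_rename, mem_support_rename e he]
      exact hu
    have h2 := hI _ h1
    rw [sum_emb e he] at h2
    · refine h2.trans (le_of_eq ?_)
      apply Finset.sum_congr rfl
      intro h _
      rw [Finsupp.mapDomain_apply he]
    · intro h hh
      rw [Finsupp.mapDomain_of_notMem_range _ _ hh]
      simp
  · intro hi
    have hloc : IsLocalHom (rename (R := k) e) := by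
      constructor
      intro a ha
      have := ha.map (killCompl he)
      rwa [killCompl_rename_app] at this
    rw [← hf'] at hi
    exact Irreducible.of_map hi
  · intro ξ
    rw [← hf', eval_rename]
    rfl

end Pool.Agent.Helper32.SGA
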